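import Pool.Agent.N228.AZ.Stm3
import Pool.Agent.N849.AZ.Up

/-!
# AZ3/TOFULL: the expansion of the area of the parameters of exact period `k + 1`
-/

set_option autoImplicit false
open Metric MeasureTheory Set Filter Topology

namespace Pool.Agent.N427.AZ

open Pool.Agent.W747.MB Pool.Agent.TH363.CD Pool.Agent.N228.AZ
open Pool.Agent.N849.AZ (cont_Y meas_Zn Zn_fin sum_half toReal_low)

/-- the iterated logarithm -/
noncomputable abbrev lg (j n : ℕ) : ℝ := Real.log^[j] (n : ℝ)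

theorem lg_succ (j n : ℕ) : lg (j + 1) n = Real.log (lg j n) :=
  Function.iterate_succ_apply' _ _ _

theorem lg_anti {J n : ℕ} (h : ∀ j, j ≤ J → 1 ≤ lg j n) {i j : ℕ} (hij : i ≤ j) (hj : j ≤ J) :
    lg j n ≤ lg i n := by
  induction j, hij using Nat.le_induction with
  | base => exact le_rfl
  | succ j hij ih =>
    have h1 := h j (by omega)
    have h2 := ih (by omega)
    rw [lg_succ]
    exact (Real.log_le_self (by linarith)).trans h2

theorem good (J : ℕ) : ∀ᶠ n : ℕ in atTop, ∀ j, j ≤ J → 1 ≤ lg j n := by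
  induction J with
  | zero =>
    filter_upwards [eventually_ge_atTop 1] with n hn j hj
    have : j = 0 := by omega
    subst this
    show (1 : ℝ) ≤ (n : ℝ)
    exact_mod_cast hn
  | succ J ih =>
    filter_upwards [ih, (tendsto_iterlog (J + 1)).eventually_ge_atTop 1] with n h1 h2 j hj
    rcases Nat.lt_or_ge J j with h | h
    · have : j = J + 1 := by omega
      subst this
      exact h2
    · exact h1 j h

/-- upper bound for one piece from the lower bounds for the others -/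
theorem up_one (m : ℕ) (e : ℕ → ℝ) (e0 V δ : ℝ)
    (hlow : ∀ j ∈ Finset.Icc 1 m, (1 / 2) ^ j * V - δ ≤ e j)
    (hlow0 : (1 / 2) ^ m * V - δ ≤ e0)
    (hsum : ∑ j ∈ Finset.Icc 1 m, e j + e0 ≤ V) (i : ℕ) (hi : i ∈ Finset.Icc 1 m) :
    e i ≤ (1 / 2) ^ i * V + m * δ := by
  have hS := sum_half m
  have h1 : ∑ j ∈ (Finset.Icc 1 m).erase i, ((1 / 2 : ℝ) ^ j * V - δ) ≤
      ∑ j ∈ (Finset.Icc 1 m).erase i, e j :=
    Finset.sum_le_sum fun j hj => hlow j (Finset.mem_of_mem_erase hj)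
  have h2 := Finset.add_sum_erase (Finset.Icc 1 m) e hi
  have h3 := Finset.add_sum_erase (Finset.Icc 1 m) (fun j => (1 / 2 : ℝ) ^ j) hi
  beta_reduce at h3
  rw [Finset.sum_sub_distrib, ← Finset.sum_mul, Finset.sum_const,
    Finset.card_erase_of_mem hi, Nat.card_Icc, Nat.add_sub_cancel, nsmul_eq_mul] at h1
  have hm1 : 1 ≤ m := by
    rw [Finset.mem_Icc] at hi
    omega
  rw [Nat.cast_sub hm1, Nat.cast_one] at h1
  have h8 : ∑ j ∈ (Finset.Icc 1 m).erase i, (1 / 2 : ℝ) ^ j = 1 - (1 / 2) ^ m - (1 / 2) ^ i := by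
    linarith
  rw [h8] at h1
  nlinarith

/-- the pieces of a zone -/
theorem sum_zone (hMeas : P_MEAS) {n : ℕ} (hn2 : 2 ≤ n) (k : ℕ) (a b : ℝ) :
    ∑ j ∈ Finset.Icc 1 k, (volume (Ex n (j + 1) ∩ Zn n a b)).toReal +
      (volume (Zn n a b \ N62a1eb23.multibrotSet n)).toReal ≤ (volume (Zn n a b)).toReal := by
  have hZf := Zn_fin hn2 a b
  have hZm := meas_Zn n a b
  have hsub : ∀ s : Set ℂ, volume (s ∩ Zn n a b) ≠ ⊤ := fun s =>
    ((measure_mono Set.inter_subset_right).trans_lt (lt_top_iff_ne_top.2 hZf)).ne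
  have hsub0 : volume (Zn n a b \ N62a1eb23.multibrotSet n) ≠ ⊤ :=
    ((measure_mono Set.sdiff_subset).trans_lt (lt_top_iff_ne_top.2 hZf)).ne
  have hsum : ∑ j ∈ Finset.Icc 1 k, volume (Ex n (j + 1) ∩ Zn n a b) +
      volume (Zn n a b \ N62a1eb23.multibrotSet n) ≤ volume (Zn n a b) := by
    have hmeas : ∀ j ∈ Finset.Icc 1 k, MeasurableSet (Ex n (j + 1) ∩ Zn n a b) := fun j _ =>
      ((hMeas n hn2).2 (j + 1)).1.inter hZm
    rw [← measure_biUnion_finset ?_ hmeas, ← measure_union ?_ (hZm.diff (hMeas n hn2).1)]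
    · refine measure_mono (Set.union_subset (Set.iUnion₂_subset fun j _ =>
        Set.inter_subset_right) Set.sdiff_subset)
    · rw [Set.disjoint_left]
      rintro c hc ⟨-, hc'⟩
      rw [Set.mem_iUnion₂] at hc
      obtain ⟨j, -, ⟨z, hz, -⟩, -⟩ := hc
      exact hc' (mem_multibrot hn2 hz)
    · intro i _ j _ hij
      rw [Function.onFun, Set.disjoint_left]
      rintro c ⟨⟨z, hz, hz1⟩, -⟩ ⟨⟨z', hz', hz1'⟩, -⟩
      have h3 := period_unique hn2 hz hz'
      rw [hz1, hz1'] at h3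
      exact hij (by omega)
  have h3 := (ENNReal.toReal_le_toReal (ne_top_of_le_ne_top hZf hsum) hZf).2 hsum
  rw [ENNReal.toReal_add (ne_top_of_le_ne_top hZf (le_self_add.trans hsum)) hsub0,
    ENNReal.toReal_sum (fun j _ => hsub _)] at h3
  exact h3

theorem toReal_low' {x y : ℝ} {u v : ENNReal} (hx : 0 ≤ x) (hy : 0 ≤ y) (hu : u ≠ ⊤) (hv : v ≠ ⊤)
    (h : ENNReal.ofReal x * u ≤ v + ENNReal.ofReal y) : x * u.toReal - y ≤ v.toReal := by
  have h1 := (ENNReal.toReal_le_toReal (ENNReal.mul_ne_top ENNReal.ofReal_ne_top hu)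
    (ENNReal.add_ne_top.2 ⟨hv, ENNReal.ofReal_ne_top⟩)).2 h
  rw [ENNReal.toReal_mul, ENNReal.toReal_add hv ENNReal.ofReal_ne_top, ENNReal.toReal_ofReal hx,
    ENNReal.toReal_ofReal hy] at h1
  linarith

/-- one zone -/
theorem zone (hMeas : P_MEAS) (hAnu : P_ANU2) (hSZ : P_SZ) (k m : ℕ) (hk : 1 ≤ k) (hkm : k ≤ m) :
    ∃ C : ℝ, 0 < C ∧ ∀ᶠ n : ℕ in atTop,
      |n * (volume (Ex n (k + 1) ∩ Zn n (lg m n) (lg (m - 1) n))).toReal -
        Real.pi / 2 ^ (k - 1) * (lg m n - lg (m + 1) n)| ≤ C := by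
  obtain ⟨CA, hCA, hA⟩ := hAnu
  obtain ⟨CS, hCS, hS⟩ := hSZ m (hk.trans hkm)
  refine ⟨CS * (m + 1) + CA, by positivity, ?_⟩
  filter_upwards [hA, hS, good (m + 1), eventually_ge_atTop 2] with n hA hS hg hn2
  have hn0 : (0 : ℝ) < n := by
    have : 0 < n := by omega
    exact_mod_cast this
  have hm1 : 1 ≤ m := hk.trans hkm
  have g0 := hg m (by omega)
  have g1 := hg (m - 1) (by omega)
  have g2 : lg m n ≤ lg (m - 1) n := lg_anti hg (by omega) (by omega)
  have g3 : lg (m - 1) n ≤ 2 * n := by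
    have h1 : lg (m - 1) n ≤ lg 0 n := lg_anti hg (by omega) (by omega)
    have h2 : lg 0 n = n := rfl
    linarith
  have hA1 := hA (lg m n) (lg (m - 1) n) (by linarith) g2 g3
  have hlog : Real.log (lg (m - 1) n / lg m n) = lg m n - lg (m + 1) n := by
    rw [Real.log_div (by linarith) (by linarith), ← lg_succ, ← lg_succ,
      Nat.sub_add_cancel hm1]
  rw [hlog] at hA1
  have hZf := Zn_fin hn2 (lg m n) (lg (m - 1) n)
  have hsub : ∀ s : Set ℂ, volume (s ∩ Zn n (lg m n) (lg (m - 1) n)) ≠ ⊤ := fun s =>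
    ((measure_mono Set.inter_subset_right).trans_lt (lt_top_iff_ne_top.2 hZf)).ne
  have hsub0 : volume (Zn n (lg m n) (lg (m - 1) n) \ N62a1eb23.multibrotSet n) ≠ ⊤ :=
    ((measure_mono Set.sdiff_subset).trans_lt (lt_top_iff_ne_top.2 hZf)).ne
  have hlow : ∀ j ∈ Finset.Icc 1 m, (1 / 2) ^ j * (volume (Zn n (lg m n) (lg (m - 1) n))).toReal -
      CS / n ≤ (volume (Ex n (j + 1) ∩ Zn n (lg m n) (lg (m - 1) n))).toReal := by
    intro j hj
    rw [Finset.mem_Icc] at hj
    exact toReal_low' (by positivity) (by positivity) hZf (hsub _) (hS.1 j hj.1 hj.2)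
  have hlow0 := toReal_low' (by positivity) (by positivity) hZf hsub0 hS.2
  have hkm' : k ∈ Finset.Icc 1 m := Finset.mem_Icc.2 ⟨hk, hkm⟩
  have hup := up_one m (fun j => (volume (Ex n (j + 1) ∩ Zn n (lg m n) (lg (m - 1) n))).toReal)
    _ _ (CS / n) hlow hlow0 (sum_zone hMeas hn2 m _ _) k hkm'
  have hlo := hlow k hkm'
  beta_reduce at hup
  set V := (volume (Zn n (lg m n) (lg (m - 1) n))).toReal with hV
  set e := (volume (Ex n (k + 1) ∩ Zn n (lg m n) (lg (m - 1) n))).toReal with he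
  have hpow : Real.pi / 2 ^ (k - 1) = (1 / 2) ^ k * (2 * Real.pi) := by
    obtain ⟨i, rfl⟩ : ∃ i, k = i + 1 := ⟨k - 1, by omega⟩
    rw [Nat.add_sub_cancel, one_div, inv_pow, pow_succ]
    field_simp
  have hhalf0 : (0 : ℝ) < (1 / 2) ^ k := by positivity
  have hhalf : (1 / 2 : ℝ) ^ k ≤ 1 := pow_le_one₀ (by norm_num) (by norm_num)
  have h1 : n * e ≤ (1 / 2) ^ k * (n * V) + m * CS := by
    have := mul_le_mul_of_nonneg_left hup hn0.le
    calc n * e ≤ n * ((1 / 2) ^ k * V + m * (CS / n)) := this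
      _ = (1 / 2) ^ k * (n * V) + m * CS := by field_simp
  have h2 : (1 / 2) ^ k * (n * V) - CS ≤ n * e := by
    have := mul_le_mul_of_nonneg_left hlo hn0.le
    calc (1 / 2) ^ k * (n * V) - CS = n * ((1 / 2) ^ k * V - CS / n) := by field_simp
      _ ≤ n * e := this
  have h3 : |(1 / 2) ^ k * (n * V) - Real.pi / 2 ^ (k - 1) * (lg m n - lg (m + 1) n)| ≤ CA := by
    rw [hpow, mul_assoc, ← mul_sub, abs_mul, abs_of_pos hhalf0]
    calc (1 / 2) ^ k * |n * V - 2 * Real.pi * (lg m n - lg (m + 1) n)| ≤ 1 * CA := by gcongr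
      _ = CA := one_mul _
  have h4 := abs_le.1 h3
  have hm0 : (0 : ℝ) ≤ m := Nat.cast_nonneg m
  rw [abs_le]
  constructor
  · nlinarith [h4.1]
  · nlinarith [h4.2]

/-- the top -/
theorem top (k : ℕ) (hk : 1 ≤ k) : ∃ C : ℝ, 0 < C ∧ ∀ᶠ n : ℕ in atTop,
    volume (NN n k ∩ {c | lg (k - 1) n ≤ Y n c}) ≤ ENNReal.ofReal (C / n) := by
  obtain ⟨i, rfl⟩ : ∃ i, k = i + 1 := ⟨k - 1, by omega⟩
  rw [Nat.add_sub_cancel]
  obtain ⟨C, hC, hU⟩ := UU_all i
  obtain ⟨C', hC', hL⟩ := Lam_le i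
  refine ⟨600000 * C * (C' + 3), by positivity, ?_⟩
  filter_upwards [hL, (tendsto_iterlog i).eventually_ge_atTop (10 ^ 20),
    eventually_ge_atTop (10 ^ 6)] with n hL hy hn
  have hn0 : (0 : ℝ) < n := by
    have : 0 < n := by omega
    exact_mod_cast this
  have hy' : (10 : ℝ) ^ 20 ≤ lg i n := hy
  have hy0 : 0 < lg i n := lt_of_lt_of_le (by norm_num) hy'
  have hy1 : 1 ≤ lg i n := le_trans (by norm_num) hy'
  obtain ⟨K, hK⟩ : ∃ K : ℕ, 2 * (n : ℝ) < 2 ^ K * lg i n := by
    obtain ⟨K, hK⟩ := pow_unbounded_of_one_lt (2 * (n : ℝ) / lg i n) (show (1 : ℝ) < 2 by norm_num)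
    exact ⟨K, by rwa [div_lt_iff₀ hy0] at hK⟩
  refine (tailN hC hU hn K (lg i n) hy' hK).trans (ENNReal.ofReal_le_ofReal ?_)
  have h1 : Real.log (lg i n) ≤ lg i n := Real.log_le_self hy0.le
  have h2 : Lam i n + 2 + Real.log (lg i n) ≤ (C' + 3) * lg i n := by
    have : Lam i n ≤ C' * lg i n := hL
    nlinarith
  rw [div_le_div_iff₀ (by positivity) hn0]
  calc 600000 * C * (Lam i n + 2 + Real.log (lg i n)) * n
      ≤ 600000 * C * ((C' + 3) * lg i n) * n := by gcongr
    _ = 600000 * C * (C' + 3) * (n * lg i n) := by ring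

/-- position of a point with respect to the zones -/
theorem locate {k n : ℕ} {y : ℝ} (h : y ≤ lg (k - 1) n) (hk : 1 ≤ k) (p : ℕ) :
    (∃ j, j ≤ p ∧ lg (k + j) n ≤ y ∧ y ≤ lg (k + j - 1) n) ∨ y ≤ lg (k + p) n := by
  induction p with
  | zero =>
    rcases le_total (lg k n) y with h1 | h1
    · exact Or.inl ⟨0, le_rfl, by simpa using h1, by simpa using h⟩
    · exact Or.inr (by simpa using h1)
  | succ p ih =>
    rcases ih with ⟨j, hj, hj'⟩ | ih
    · exact Or.inl ⟨j, by omega, hj'⟩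
    · rcases le_total (lg (k + (p + 1)) n) y with h1 | h1
      · refine Or.inl ⟨p + 1, le_rfl, h1, ?_⟩
        have e : k + (p + 1) - 1 = k + p := by omega
        rw [e]
        exact ih
      · exact Or.inr h1

theorem core (hMeas : P_MEAS) (hAnu : P_ANU2) (hSZ : P_SZ) (k p : ℕ) (hk : 1 ≤ k) :
    ∃ C : ℝ, 0 < C ∧ ∀ᶠ n : ℕ in atTop,
      |n * (volume (Ex n (k + 1))).toReal - Real.pi / 2 ^ (k - 1) * lg k n| ≤
        C * lg (k + p + 1) n := by
  choose CZ hCZ0 hCZ using fun i : ℕ => zone hMeas hAnu hSZ k (k + i) hk (by omega)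
  obtain ⟨CT, hCT, hT⟩ := top k hk
  obtain ⟨CA, hCA, hA⟩ := hAnu
  have hev := (Filter.eventually_all_finset (Finset.range (p + 1))).2 fun i _ => hCZ i
  set SC : ℝ := ∑ i ∈ Finset.range (p + 1), CZ i with hSC
  have hSC0 : 0 ≤ SC := Finset.sum_nonneg fun i _ => (hCZ0 i).le
  have hpi := Real.pi_pos
  refine ⟨SC + (p + 1) * CA + CA + CT + 4 + 3 * Real.pi + Real.pi * Real.log 3 * 2, ?_, ?_⟩
  · have : 0 ≤ Real.log 3 := Real.log_nonneg (by norm_num)
    positivity
  filter_upwards [hev, hT, hA, good (k + p + 1), eventually_ge_atTop (10 ^ 6)]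
    with n hZ hT hA hg hn
  have hn2 : 2 ≤ n := by omega
  have hn0 : (0 : ℝ) < n := by
    have : 0 < n := by omega
    exact_mod_cast this
  set E := Ex n (k + 1) with hE
  have hEm : MeasurableSet E := ((hMeas n hn2).2 (k + 1)).1
  have hENN : E ⊆ NN n k := Ex_sub_NN hn2 k
  have hEY : ∀ c ∈ E, 1 / 3 ≤ Y n c ∧ Y n c ≤ 2 * n := by
    intro c hc
    have h1 := hENN hc
    obtain ⟨a1, a2, -⟩ := alv' hn h1.1 (h1.2 1 le_rfl hk)
    exact ⟨a1, a2⟩
  have hEf : volume E ≠ ⊤ := by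
    have h1 : E ⊆ Zn n (1 / 3) (2 * n) := fun c hc => hEY c hc
    exact ((measure_mono h1).trans_lt (lt_top_iff_ne_top.2 (Zn_fin hn2 _ _))).ne
  have hEsub : ∀ s : Set ℂ, volume (E ∩ s) ≠ ⊤ := fun s =>
    ((measure_mono Set.inter_subset_left).trans_lt (lt_top_iff_ne_top.2 hEf)).ne
  have hlK : 1 ≤ lg (k + p + 1) n := hg _ le_rfl
  -- sums over the zones
  have hsumZ : |∑ i ∈ Finset.range (p + 1),
      n * (volume (E ∩ Zn n (lg (k + i) n) (lg (k + i - 1) n))).toReal -
      Real.pi / 2 ^ (k - 1) * (lg k n - lg (k + p + 1) n)| ≤ SC := by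
    have h1 : Real.pi / 2 ^ (k - 1) * (lg k n - lg (k + p + 1) n) =
        ∑ i ∈ Finset.range (p + 1), Real.pi / 2 ^ (k - 1) *
          (lg (k + i) n - lg (k + i + 1) n) := by
      rw [← Finset.mul_sum]
      congr 1
      exact (Finset.sum_range_sub' (fun i => lg (k + i) n) (p + 1)).symm
    rw [h1, ← Finset.sum_sub_distrib]
    refine (Finset.abs_sum_le_sum_abs _ _).trans (Finset.sum_le_sum fun i hi => hZ i hi)
  have hsZ := abs_le.1 hsumZ
  have hpk0 : 0 < Real.pi / 2 ^ (k - 1) := by positivity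
  have hpk1 : Real.pi / 2 ^ (k - 1) ≤ Real.pi := div_le_self hpi.le (one_le_pow₀ (by norm_num))
  -- lower bound
  have hlow : ∑ i ∈ Finset.range (p + 1),
      (volume (E ∩ Zn n (lg (k + i) n) (lg (k + i - 1) n))).toReal ≤
      (volume E).toReal + (p + 1) * (CA / n) := by
    set Wd : ℕ → Set ℂ := fun i => E ∩ {c | lg (k + i) n < Y n c ∧ Y n c ≤ lg (k + i - 1) n}
      with hWd
    have hWm : ∀ i, MeasurableSet (Wd i) := fun i =>
      hEm.inter ((measurableSet_lt measurable_const (cont_Y n).measurable).inter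
        (measurableSet_le (cont_Y n).measurable measurable_const))
    have h1 : ∀ i ∈ Finset.range (p + 1),
        (volume (E ∩ Zn n (lg (k + i) n) (lg (k + i - 1) n))).toReal ≤
        (volume (Wd i)).toReal + CA / n := by
      intro i hi
      rw [Finset.mem_range] at hi
      have g0 := hg (k + i) (by omega)
      have g1 : lg (k + i) n ≤ 2 * n := by
        have h1 : lg (k + i) n ≤ lg 0 n := lg_anti hg (by omega) (by omega)
        have h2 : lg 0 n = n := rfl
        linarith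
      have h2 := hA (lg (k + i) n) (lg (k + i) n) (by linarith) le_rfl g1
      rw [div_self (by linarith), Real.log_one, mul_zero, sub_zero] at h2
      have h3 := (le_abs_self _).trans h2
      have h4 : (volume (Zn n (lg (k + i) n) (lg (k + i) n))).toReal ≤ CA / n := by
        rw [le_div_iff₀ hn0]
        linarith
      have h5 : E ∩ Zn n (lg (k + i) n) (lg (k + i - 1) n) ⊆
          Wd i ∪ Zn n (lg (k + i) n) (lg (k + i) n) := by
        rintro c ⟨hc, hc1, hc2⟩
        rcases hc1.lt_or_eq with h6 | h6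
        · exact Or.inl ⟨hc, h6, hc2⟩
        · exact Or.inr ⟨hc1, h6.symm.le⟩
      have hWf : volume (Wd i) ≠ ⊤ := hEsub _
      have hZf := Zn_fin hn2 (lg (k + i) n) (lg (k + i) n)
      have h7 := (ENNReal.toReal_le_toReal (hEsub _) (ENNReal.add_ne_top.2 ⟨hWf, hZf⟩)).2
        ((measure_mono h5).trans (measure_union_le _ _))
      rw [ENNReal.toReal_add hWf hZf] at h7
      linarith
    have h2 : ∑ i ∈ Finset.range (p + 1), (volume (Wd i)).toReal ≤ (volume E).toReal := by
      rw [← ENNReal.toReal_sum (fun i _ => hEsub _)]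
      refine (ENNReal.toReal_le_toReal (ENNReal.sum_ne_top.2 fun i _ => hEsub _) hEf).2 ?_
      rw [← measure_biUnion_finset ?_ (fun i _ => hWm i)]
      · exact measure_mono (Set.iUnion₂_subset fun i _ => Set.inter_subset_left)
      · have key : ∀ i j, i < j → j ≤ p → Disjoint (Wd i) (Wd j) := by
          intro i j hij hj
          rw [Set.disjoint_left]
          rintro c ⟨-, h3, -⟩ ⟨-, -, h4⟩
          have h5 : lg (k + j - 1) n ≤ lg (k + i) n := lg_anti hg (by omega) (by omega)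
          linarith
        intro i hi j hj hij
        rw [Finset.coe_range, Set.mem_Iio] at hi hj
        rcases lt_or_gt_of_ne hij with h | h
        · exact key i j h (by omega)
        · exact (key j i h (by omega)).symm
    calc _ ≤ ∑ i ∈ Finset.range (p + 1), ((volume (Wd i)).toReal + CA / n) :=
          Finset.sum_le_sum h1
      _ = ∑ i ∈ Finset.range (p + 1), (volume (Wd i)).toReal + (p + 1) * (CA / n) := by
          rw [Finset.sum_add_distrib, Finset.sum_const, Finset.card_range, nsmul_eq_mul]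
          push_cast
          ring
      _ ≤ _ := by linarith
  have hlow' : ∑ i ∈ Finset.range (p + 1),
      n * (volume (E ∩ Zn n (lg (k + i) n) (lg (k + i - 1) n))).toReal ≤
      n * (volume E).toReal + (p + 1) * CA := by
    rw [← Finset.mul_sum]
    calc _ ≤ n * ((volume E).toReal + (p + 1) * (CA / n)) := mul_le_mul_of_nonneg_left hlow hn0.le
      _ = _ := by field_simp
  -- upper bound
  have hup : n * (volume E).toReal ≤ ∑ i ∈ Finset.range (p + 1),
      n * (volume (E ∩ Zn n (lg (k + i) n) (lg (k + i - 1) n))).toReal +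
      (2 * Real.pi * (Real.log 3 + lg (k + p + 1) n) + CA) + CT := by
    set B := Zn n (1 / 3) (lg (k + p) n) with hB
    set Tp := NN n k ∩ {c | lg (k - 1) n ≤ Y n c} with hTp
    have hBf : volume B ≠ ⊤ := Zn_fin hn2 _ _
    have hTf : volume Tp ≠ ⊤ := ne_top_of_le_ne_top ENNReal.ofReal_ne_top hT
    have hTr : (volume Tp).toReal ≤ CT / n :=
      ENNReal.toReal_le_of_le_ofReal (by positivity) hT
    have g0 := hg (k + p) (by omega)
    have g1 : lg (k + p) n ≤ 2 * n := by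
      have h1 : lg (k + p) n ≤ lg 0 n := lg_anti hg (by omega) (by omega)
      have h2 : lg 0 n = n := rfl
      linarith
    have h2 := hA (1 / 3) (lg (k + p) n) le_rfl (by linarith) g1
    have h3 : Real.log (lg (k + p) n / (1 / 3)) = Real.log 3 + lg (k + p + 1) n := by
      rw [lg_succ, ← Real.log_mul (by norm_num) (by linarith)]
      congr 1
      ring
    rw [h3] at h2
    have h4 := (abs_le.1 h2).2
    have hcov : E ⊆ (⋃ i ∈ Finset.range (p + 1), E ∩ Zn n (lg (k + i) n) (lg (k + i - 1) n)) ∪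
        (B ∪ Tp) := by
      intro c hc
      obtain ⟨b1, -⟩ := hEY c hc
      rcases le_total (lg (k - 1) n) (Y n c) with h5 | h5
      · exact Or.inr (Or.inr ⟨hENN hc, h5⟩)
      · rcases locate h5 hk p with ⟨j, hj, hj1, hj2⟩ | h6
        · left
          rw [Set.mem_iUnion₂]
          exact ⟨j, Finset.mem_range.2 (by omega), hc, hj1, hj2⟩
        · exact Or.inr (Or.inl ⟨b1, h6⟩)
    have hSf : ∑ i ∈ Finset.range (p + 1),
        volume (E ∩ Zn n (lg (k + i) n) (lg (k + i - 1) n)) ≠ ⊤ :=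
      ENNReal.sum_ne_top.2 fun i _ => hEsub _
    have h5 : volume E ≤ ∑ i ∈ Finset.range (p + 1),
        volume (E ∩ Zn n (lg (k + i) n) (lg (k + i - 1) n)) + (volume B + volume Tp) :=
      (measure_mono hcov).trans ((measure_union_le _ _).trans
        (add_le_add (measure_biUnion_finset_le _ _) (measure_union_le _ _)))
    have h6 := (ENNReal.toReal_le_toReal hEf (ENNReal.add_ne_top.2 ⟨hSf,
      ENNReal.add_ne_top.2 ⟨hBf, hTf⟩⟩)).2 h5
    rw [ENNReal.toReal_add hSf (ENNReal.add_ne_top.2 ⟨hBf, hTf⟩), ENNReal.toReal_add hBf hTf,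
      ENNReal.toReal_sum (fun i _ => hEsub _)] at h6
    have h7 := mul_le_mul_of_nonneg_left h6 hn0.le
    rw [← Finset.mul_sum]
    have h8 : n * (volume Tp).toReal ≤ CT := by
      rw [le_div_iff₀ hn0] at hTr
      linarith
    calc n * (volume E).toReal ≤ _ := h7
      _ = n * ∑ i ∈ Finset.range (p + 1),
          (volume (E ∩ Zn n (lg (k + i) n) (lg (k + i - 1) n))).toReal +
          n * (volume B).toReal + n * (volume Tp).toReal := by ring
      _ ≤ _ := by
          have h9 : n * (volume B).toReal ≤ 2 * Real.pi * (Real.log 3 + lg (k + p + 1) n) + CA := by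
            linarith
          linarith
  have hl3 : 0 ≤ Real.log 3 := Real.log_nonneg (by norm_num)
  have hpc : (0 : ℝ) ≤ p := Nat.cast_nonneg p
  set l := lg (k + p + 1) n with hl
  set q := Real.pi / 2 ^ (k - 1) with hq
  have hql : q * l ≤ Real.pi * l := mul_le_mul_of_nonneg_right hpk1 (by linarith)
  have hql0 : 0 ≤ q * l := by positivity
  have r1 : SC ≤ SC * l := le_mul_of_one_le_right hSC0 hlK
  have r2 : (p + 1) * CA ≤ (p + 1) * CA * l := le_mul_of_one_le_right (by positivity) hlK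
  have r3 : CA ≤ CA * l := le_mul_of_one_le_right hCA.le hlK
  have r4 : CT ≤ CT * l := le_mul_of_one_le_right hCT.le hlK
  have r5 : Real.pi * Real.log 3 ≤ Real.pi * Real.log 3 * l :=
    le_mul_of_one_le_right (by positivity) hlK
  have hexp : (SC + (p + 1) * CA + CA + CT + 4 + 3 * Real.pi + Real.pi * Real.log 3 * 2) * l =
      SC * l + (p + 1) * CA * l + CA * l + CT * l + 4 * l + 3 * (Real.pi * l) +
        2 * (Real.pi * Real.log 3 * l) := by ring
  have hq2 : q * (lg k n - l) = q * lg k n - q * l := by ring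
  rw [hq2] at hsZ
  have hpl : 0 ≤ Real.pi * l := by positivity
  have hsc : 0 ≤ SC * l := by positivity
  have hca : 0 ≤ CA * l := by positivity
  have hct : 0 ≤ CT * l := by positivity
  have hpca : 0 ≤ (p + 1) * CA * l := by positivity
  have hpl3 : 0 ≤ Real.pi * Real.log 3 * l := by positivity
  have hup2 : 2 * Real.pi * (Real.log 3 + l) = 2 * (Real.pi * Real.log 3) + 2 * (Real.pi * l) := by
    ring
  rw [hup2] at hup
  rw [hexp, abs_le]
  constructor
  · linarith [hsZ.1]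
  · linarith [hsZ.2]

theorem main : P_TOFULL := by
  intro hMeas hAnu hSZ k K hk
  obtain ⟨C, hC, h⟩ := core hMeas hAnu hSZ k K hk
  refine ⟨C, hC, ?_⟩
  filter_upwards [h, good (k + K + 1)] with n h1 h2
  refine h1.trans (mul_le_mul_of_nonneg_left ?_ hC.le)
  exact lg_anti h2 (by omega) le_rfl

end Pool.Agent.N427.AZ
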